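import Pool.Agent.Helper1.RG.Defs

set_option autoImplicit false

open MeasureTheory Complex
open scoped ComplexConjugate
open Pool.Agent.Helper1.RG

namespace Pool.Agent.Helper58.RG

theorem st_D3 : ST_D3 := by
  obtain ⟨t, -, ht, hcov⟩ := (isCompact_univ : IsCompact (Set.univ : Set Circle)).finite_cover_balls
    (show (0 : ℝ) < 1 / 4 by norm_num)
  have hc : ∀ x : Circle, ∃ y ∈ t, x ∈ Metric.ball y (1 / 4) := by
    intro x
    have := hcov (Set.mem_univ x)
    simpa using this
  choose g hg using hc
  refine ⟨ht.toFinset.card, fun x => ht.toFinset.equivFin ⟨g x, by simpa using (hg x).1⟩, ?_⟩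
  intro x y hxy
  have h1 : g x = g y := by simpa using hxy
  have h2 := (hg x).2
  have h3 := (hg y).2
  rw [Metric.mem_ball] at h2 h3
  have h4 : dist x y < 1 / 2 := by
    calc dist x y ≤ dist x (g x) + dist (g x) y := dist_triangle _ _ _
      _ = dist x (g x) + dist y (g y) := by rw [h1, dist_comm (g y) y]
      _ < 1 / 2 := by linarith
  have h5 : dist x y = ‖(x : ℂ) - (y : ℂ)‖ := by
    rw [← dist_eq_norm]; rfl
  rw [← h5]
  exact h4.le

end Pool.Agent.Helper58.RG
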