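import Pool.Agent.Helper1.RG.Defs

set_option autoImplicit false

open MeasureTheory Complex
open scoped ComplexConjugate
open Pool.Agent.Helper1.RG

namespace Pool.Agent.Helper58.RG

theorem measurable_ev (x : ℂ) : Measurable (ev x) := by
  have h1 : Measurable (fun (χ : Om) (x : (Set.univ : Set ℂ)) => ev (x : ℂ) χ) :=
    comap_measurable _
  exact (measurable_pi_apply (⟨x, Set.mem_univ x⟩ : (Set.univ : Set ℂ))).comp h1

theorem st_MS : ST_MS := by
  intro u
  have h1 : Measurable (fun (χ : Om) (x : (Set.univ : Set ℂ)) => ev (x : ℂ) (χ.mulShift u)) := by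
    refine measurable_pi_lambda _ fun x => ?_
    exact measurable_ev (u * (x : ℂ))
  exact measurable_comap_iff.mpr h1

end Pool.Agent.Helper58.RG
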