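import Pool.Agent.Helper67.RG.EStmts

/-!
# E4: components of elements of Galois stable subspaces
-/

namespace Pool.Agent.Helper58.RG

open Polynomial Pool.Agent.Helper67.RG

theorem sig_tau (σ : Om ≃ₐ[RatFunc ℂ] Om) : σ tau = tau := σ.commutes _

theorem sig_C (σ : Om ≃ₐ[RatFunc ℂ] Om) (c : ℂ) : σ (algebraMap ℂ Om c) = algebraMap ℂ Om c := by
  rw [IsScalarTower.algebraMap_apply ℂ (RatFunc ℂ) Om]
  exact σ.commutes _

theorem sig_smul (σ : Om ≃ₐ[RatFunc ℂ] Om) (c : ℂ) (z : Om) : σ (c • z) = c • σ z := by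
  rw [Algebra.smul_def, Algebra.smul_def, map_mul, sig_C]

theorem sigK_smul (σ : Om ≃ₐ[RatFunc ℂ] Om) (c : RatFunc ℂ) (z : Om) :
    σ (c • z) = c • σ z := by
  rw [Algebra.smul_def, Algebra.smul_def, map_mul, σ.commutes]

theorem fixed_mem (z : Om) (h : ∀ σ : Om ≃ₐ[RatFunc ℂ] Om, σ z = z) :
    ∃ a : RatFunc ℂ, z = algebraMap (RatFunc ℂ) Om a := by
  have h1 := (InfiniteGalois.mem_bot_iff_fixed (k := RatFunc ℂ) z).2 h
  rw [IntermediateField.mem_bot] at h1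
  obtain ⟨a, ha⟩ := h1
  exact ⟨a, ha.symm⟩

variable {ν : ℕ} {D : Pell ν} (T : Tower D)

theorem rr_empty : T.rr ∅ = 1 := by simp [Tower.rr]

theorem sub_ne (c : ℂ) : tau - algebraMap ℂ Om c ≠ 0 := by
  rw [tau_sub_mem]
  intro h
  have h1 := (map_eq_zero (algebraMap (RatFunc ℂ) Om)).1 h
  have h2 : (RatFunc.X : RatFunc ℂ) = RatFunc.C c := sub_eq_zero.1 h1
  rw [← RatFunc.algebraMap_X, ← RatFunc.algebraMap_C] at h2
  have h3 := RatFunc.algebraMap_injective ℂ h2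
  have h4 := congrArg Polynomial.natDegree h3
  simp at h4

theorem r_ne (i : Fin 12) : T.r i ≠ 0 := by
  intro h
  have h1 := T.hr i
  rw [h] at h1
  exact sub_ne (D.lam i) (by rw [← h1]; ring)

theorem rr_ne (s : Finset (Fin 12)) : T.rr s ≠ 0 := by
  rw [Tower.rr, Finset.prod_ne_zero_iff]
  exact fun i _ => r_ne T i

theorem y_ne : T.y ≠ 0 := rr_ne T _

/-- squares of `rr` -/
theorem rr_sq (s : Finset (Fin 12)) : ∃ c : RatFunc ℂ, c ≠ 0 ∧
    T.rr s ^ 2 = algebraMap (RatFunc ℂ) Om c := by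
  obtain ⟨c, hc⟩ := Tower.prod_mem (D := D) s
  have h : T.rr s ^ 2 = algebraMap (RatFunc ℂ) Om c := by
    rw [← hc, Tower.rr, ← Finset.prod_pow]
    exact Finset.prod_congr rfl fun i _ => T.hr i
  refine ⟨c, ?_, h⟩
  rintro rfl
  rw [map_zero] at h
  exact rr_ne T s (pow_eq_zero_iff (two_ne_zero)|>.1 h)

theorem sig_r (σ : Om ≃ₐ[RatFunc ℂ] Om) (i : Fin 12) : σ (T.r i) = T.r i ∨ σ (T.r i) = - T.r i := by
  have h : σ (T.r i) ^ 2 = T.r i ^ 2 := by
    rw [← map_pow, T.hr, map_sub, sig_tau, sig_C]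
  exact sq_eq_sq_iff_eq_or_eq_neg.1 h

theorem sig_rr (σ : Om ≃ₐ[RatFunc ℂ] Om) (s : Finset (Fin 12)) :
    σ (T.rr s) = T.rr s ∨ σ (T.rr s) = - T.rr s := by
  obtain ⟨c, -, hc⟩ := rr_sq T s
  have h : σ (T.rr s) ^ 2 = T.rr s ^ 2 := by
    rw [← map_pow, hc, σ.commutes]
  exact sq_eq_sq_iff_eq_or_eq_neg.1 h

theorem rr_compl (s : Finset (Fin 12)) : T.rr s * T.rr sᶜ = T.y := by
  rw [Tower.y, Tower.rr, Tower.rr, Tower.rr, Finset.prod_mul_prod_compl]

/-- `σ` fixing `y` has the same sign on `r_s` and on `r_{sᶜ}` -/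
theorem sig_compl (σ : Om ≃ₐ[RatFunc ℂ] Om) (hσ : σ T.y = T.y) (s : Finset (Fin 12)) (e : ℂ)
    (h : σ (T.rr s) = e • T.rr s) : σ (T.rr sᶜ) = e • T.rr sᶜ := by
  have h1 : σ (T.rr s) * σ (T.rr sᶜ) = T.rr s * T.rr sᶜ := by
    rw [← map_mul, rr_compl, hσ]
  have hs := rr_ne T s
  have hs' := rr_ne T sᶜ
  rcases sig_rr T σ s with h2 | h2
  · have h3 : σ (T.rr sᶜ) = T.rr sᶜ := by
      rw [h2] at h1
      exact mul_left_cancel₀ hs h1
    rw [h2] at h
    have h4 : (e - 1) • T.rr s = 0 := by rw [sub_smul, one_smul, ← h, sub_self]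
    rcases smul_eq_zero.1 h4 with h5 | h5
    · have : e = 1 := by linear_combination h5
      rw [this, one_smul, h3]
    · exact absurd h5 hs
  · have h3 : σ (T.rr sᶜ) = -T.rr sᶜ := by
      rw [h2] at h1
      apply mul_left_cancel₀ hs
      linear_combination -h1
    rw [h2] at h
    have h4 : (e + 1) • T.rr s = 0 := by rw [add_smul, one_smul, ← h]; ring
    rcases smul_eq_zero.1 h4 with h5 | h5
    · have : e = -1 := by linear_combination h5
      rw [this, neg_smul, one_smul, h3]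
    · exact absurd h5 hs


/-! ### the field `K0 + K0 y` -/

/-- elements `a + b y` -/
def Ky (z : Om) : Prop := ∃ a b : RatFunc ℂ,
  z = algebraMap (RatFunc ℂ) Om a + algebraMap (RatFunc ℂ) Om b * T.y

theorem rr_pair (hB : ST_BAS) {s t : Finset (Fin 12)} (hst : s ≠ t) (a b : RatFunc ℂ)
    (h : a • T.rr s + b • T.rr t = 0) : a = 0 ∧ b = 0 := by
  classical
  have hli := Fintype.linearIndependent_iff.1 (hB ν D T).2.2.2
  have h1 := hli (Pi.single s a + Pi.single t b) (by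
    simp only [Pi.add_apply, add_smul, Finset.sum_add_distrib, Pi.single_apply, ite_smul,
      zero_smul, Finset.sum_ite_eq', Finset.mem_univ, if_true]
    exact h)
  have h2 := h1 s
  have h3 := h1 t
  simp only [Pi.add_apply, Pi.single_apply, if_true, if_neg hst, if_neg hst.symm, add_zero,
    zero_add] at h2 h3
  exact ⟨h2, h3⟩

theorem rr_trio (hB : ST_BAS) {s t u : Finset (Fin 12)} (hst : s ≠ t) (hsu : s ≠ u)
    (a b c : RatFunc ℂ)
    (h : a • T.rr s + b • T.rr t + c • T.rr u = 0) : a = 0 := by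
  classical
  have hli := Fintype.linearIndependent_iff.1 (hB ν D T).2.2.2
  have h1 := hli (Pi.single s a + Pi.single t b + Pi.single u c) (by
    simp only [Pi.add_apply, add_smul, Finset.sum_add_distrib, Pi.single_apply, ite_smul,
      zero_smul, Finset.sum_ite_eq', Finset.mem_univ, if_true]
    exact h)
  have h2 := h1 s
  simp only [Pi.add_apply, Pi.single_apply, if_true, if_neg hst, if_neg hsu, add_zero] at h2
  exact h2

/-- an `r_s` in `K0 + K0 y` is `1` or `y` -/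
theorem rr_Ky (hB : ST_BAS) {s : Finset (Fin 12)} (a b c : RatFunc ℂ) (hc : c ≠ 0)
    (h : c • T.rr s = a • T.rr ∅ + b • T.y) : s = ∅ ∨ s = Finset.univ := by
  by_contra hcon
  rw [not_or] at hcon
  have h1 := rr_trio T hB (s := s) (t := ∅) (u := Finset.univ) hcon.1 hcon.2 c (-a) (-b) (by
      rw [h, neg_smul, neg_smul, Tower.y]; ring)
  exact hc h1

theorem exists_neg (hB : ST_BAS) : ∃ σ : Om ≃ₐ[RatFunc ℂ] Om, σ T.y = - T.y := by
  by_contra hcon
  have h1 : ∀ σ : Om ≃ₐ[RatFunc ℂ] Om, σ T.y = T.y := by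
    intro σ
    rcases sig_rr T σ Finset.univ with h | h
    · exact h
    · exact absurd ⟨σ, h⟩ hcon
  obtain ⟨a, ha⟩ := fixed_mem T.y h1
  have h2 := rr_pair T hB (s := Finset.univ) (t := ∅) (by
    intro h; have := congrArg Finset.card h; simp at this) 1 (-a) (by
    rw [one_smul, neg_smul, rr_empty, Algebra.smul_def, mul_one, ← ha, Tower.y, add_neg_cancel])
  exact one_ne_zero h2.1

/-- elements fixed by the stabiliser of `y` -/
theorem fixed_Ky (hB : ST_BAS) (z : Om)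
    (h : ∀ σ : Om ≃ₐ[RatFunc ℂ] Om, σ T.y = T.y → σ z = z) : Ky T z := by
  obtain ⟨σ1, h1⟩ := exists_neg T hB
  have hns : ∀ σ : Om ≃ₐ[RatFunc ℂ] Om, σ T.y = - T.y → σ z = σ1 z := by
    intro σ hσ
    have h2 : (σ.symm.trans σ1 : Om ≃ₐ[RatFunc ℂ] Om) T.y = T.y := by
      rw [AlgEquiv.trans_apply]
      have h3 : σ.symm T.y = - T.y := by
        rw [AlgEquiv.symm_apply_eq, map_neg, hσ, neg_neg]
      rw [h3, map_neg, h1, neg_neg]
    have h4 := h (σ1.symm.trans σ) (by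
      rw [AlgEquiv.trans_apply]
      have h3 : σ1.symm T.y = - T.y := by
        rw [AlgEquiv.symm_apply_eq, map_neg, h1, neg_neg]
      rw [h3, map_neg, hσ, neg_neg])
    have h5 := h (σ1.trans σ.symm) (by
      rw [AlgEquiv.trans_apply, h1, map_neg]
      have h3 : σ.symm T.y = - T.y := by
        rw [AlgEquiv.symm_apply_eq, map_neg, hσ, neg_neg]
      rw [h3, neg_neg])
    rw [AlgEquiv.trans_apply, AlgEquiv.symm_apply_eq] at h5
    exact h5.symm
  have hcases : ∀ σ : Om ≃ₐ[RatFunc ℂ] Om, σ T.y = T.y ∨ σ T.y = -T.y := fun σ => sig_rr T σ _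
  have hzz : σ1 (σ1 z) = z := by
    have := h (σ1.trans σ1) (by rw [AlgEquiv.trans_apply, h1, map_neg, h1, neg_neg])
    rwa [AlgEquiv.trans_apply] at this
  have hs1 : ∀ σ : Om ≃ₐ[RatFunc ℂ] Om, σ T.y = T.y → σ (σ1 z) = σ1 z := by
    intro σ hσ
    have := hns (σ1.trans σ) (by rw [AlgEquiv.trans_apply, h1, map_neg, hσ])
    rwa [AlgEquiv.trans_apply] at this
  have hs2 : ∀ σ : Om ≃ₐ[RatFunc ℂ] Om, σ T.y = -T.y → σ (σ1 z) = z := by
    intro σ hσ
    have := h (σ1.trans σ) (by rw [AlgEquiv.trans_apply, h1, map_neg, hσ, neg_neg])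
    rwa [AlgEquiv.trans_apply] at this
  obtain ⟨a, ha⟩ := fixed_mem (z + σ1 z) (by
    intro σ
    rcases hcases σ with hσ | hσ
    · rw [map_add, h σ hσ, hs1 σ hσ]
    · rw [map_add, hns σ hσ, hs2 σ hσ, add_comm])
  obtain ⟨b, hb⟩ := fixed_mem ((z - σ1 z) * T.y) (by
    intro σ
    rcases hcases σ with hσ | hσ
    · rw [map_mul, map_sub, h σ hσ, hs1 σ hσ, hσ]
    · rw [map_mul, map_sub, hns σ hσ, hs2 σ hσ, hσ]; ring)
  obtain ⟨c, hc0, hc⟩ := rr_sq T Finset.univ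
  refine ⟨a / 2, b / (2 * c), ?_⟩
  have hy : T.y ^ 2 = algebraMap (RatFunc ℂ) Om c := hc
  have hc' : algebraMap (RatFunc ℂ) Om c ≠ 0 := by
    rw [Ne, map_eq_zero]
    exact hc0
  rw [map_div₀, map_div₀, map_mul, ← ha, ← hb, map_ofNat]
  field_simp
  rw [← hy]
  ring

/-! ### eigenvectors -/

theorem root_unity (z : Om) (n : ℕ) (hn : 0 < n) (h : z ^ n = 1) : ∃ c : ℂ, algebraMap ℂ Om c = z := by
  have h1 := X_pow_sub_one_eq_prod hn (Complex.isPrimitiveRoot_exp n hn.ne')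
  have h2 := congrArg (fun P : ℂ[X] => aeval z P) h1
  simp only [map_sub, map_pow, aeval_X, map_one, map_prod, aeval_C, h, sub_self] at h2
  obtain ⟨c, -, hc⟩ := Finset.prod_eq_zero_iff.1 h2.symm
  exact ⟨c, (sub_eq_zero.1 hc).symm⟩

theorem G_ne (hB : ST_BAS) : T.G ≠ 0 := by
  intro h
  have h1 := (hB ν D T).1
  rw [h, zero_mul] at h1
  exact one_ne_zero h1.symm

theorem w_ne (hB : ST_BAS) : T.w ≠ 0 := by
  intro h
  have h1 := T.hw'
  rw [h, zero_pow (by have := D.hν; omega)] at h1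
  exact G_ne T hB h1.symm

theorem I1_compl : I1ᶜ = I2 := by decide

theorem sig_w (hB : ST_BAS) (σ : Om ≃ₐ[RatFunc ℂ] Om) (hσ : σ T.y = T.y) :
    ∃ c : ℂ, σ T.w = c • T.w := by
  obtain ⟨a, ha⟩ := Tower.aeval_tau_mem D.p
  obtain ⟨b, hb⟩ := Tower.aeval_tau_mem D.q
  have hw0 := w_ne T hB
  have hG : σ T.G = T.G ∨ σ T.G = - T.G := by
    have hc := sig_compl T σ hσ I1
    rw [I1_compl] at hc
    rcases sig_rr T σ I1 with h | h
    · have h2 := hc 1 (by rw [h, one_smul])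
      rw [one_smul] at h2
      left
      rw [Tower.G, ha, hb, map_add, map_mul, map_mul, σ.commutes, σ.commutes, h, h2]
    · have h2 := hc (-1) (by rw [h, neg_smul, one_smul])
      rw [neg_smul, one_smul] at h2
      right
      rw [Tower.G, ha, hb, map_add, map_mul, map_mul, σ.commutes, σ.commutes, h, h2]
      ring
  have h1 : (σ T.w / T.w) ^ (2 * ν) = 1 := by
    have h3 : (σ T.w ^ ν) ^ 2 = (T.w ^ ν) ^ 2 := by
      rw [← map_pow, T.hw']
      rcases hG with h | h <;> rw [h]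
      ring
    rw [div_pow, mul_comm 2 ν, pow_mul, pow_mul, h3, div_self]
    exact pow_ne_zero _ (pow_ne_zero _ hw0)
  obtain ⟨c, hc⟩ := root_unity _ _ (by have := D.hν; omega) h1
  refine ⟨c, ?_⟩
  rw [Algebra.smul_def, hc, div_mul_cancel₀ _ hw0]

/-- each `r_s w^i` is an eigenvector of the stabiliser of `y` -/
theorem sig_z (hB : ST_BAS) (σ : Om ≃ₐ[RatFunc ℂ] Om) (hσ : σ T.y = T.y) (s : Finset (Fin 12))
    (i : ℕ) : ∃ e : ℂ, σ (T.rr s * T.w ^ i) = e • (T.rr s * T.w ^ i) ∧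
      σ (T.rr sᶜ * T.w ^ i) = e • (T.rr sᶜ * T.w ^ i) := by
  obtain ⟨c, hc⟩ := sig_w T hB σ hσ
  have h1 : ∃ e : ℂ, σ (T.rr s) = e • T.rr s := by
    rcases sig_rr T σ s with h | h
    · exact ⟨1, by rw [h, one_smul]⟩
    · exact ⟨-1, by rw [h, neg_smul, one_smul]⟩
  obtain ⟨e, he⟩ := h1
  refine ⟨e * c ^ i, ?_, ?_⟩
  · rw [map_mul, he, map_pow, hc, _root_.smul_pow, smul_mul_smul_comm]
  · rw [map_mul, sig_compl T σ hσ s e he, map_pow, hc, _root_.smul_pow, smul_mul_smul_comm]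

theorem symmDiff_cases {s t : Finset (Fin 12)} (h : symmDiff s t = ∅ ∨ symmDiff s t = Finset.univ) :
    t = s ∨ t = sᶜ := by
  classical
  rcases h with h | h
  · left
    exact (symmDiff_eq_bot.1 h).symm
  · right
    have h1 : IsCompl s t := (symmDiff_eq_top s t).1 h
    rw [h1.compl_eq]

/-- separation of the eigencharacters -/
theorem sep (hX : ST_EX) (hB : ST_BAS) {s t : Finset (Fin 12)} {i j : ℕ} (hi : i < ν)
    (hji : j ≤ i)
    (h : ∀ σ : Om ≃ₐ[RatFunc ℂ] Om, σ T.y = T.y → ∀ e : ℂ,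
      σ (T.rr s * T.w ^ i) = e • (T.rr s * T.w ^ i) →
      σ (T.rr t * T.w ^ j) = e • (T.rr t * T.w ^ j)) :
    i = j ∧ (t = s ∨ t = sᶜ) := by
  have hw0 := w_ne T hB
  have hs0 := rr_ne T s
  have ht0 := rr_ne T t
  have hfix : ∀ σ : Om ≃ₐ[RatFunc ℂ] Om, σ T.y = T.y →
      σ ((T.rr s * T.w ^ i) / (T.rr t * T.w ^ j)) = (T.rr s * T.w ^ i) / (T.rr t * T.w ^ j) := by
    intro σ hσ
    obtain ⟨e, he, -⟩ := sig_z T hB σ hσ s i
    have h2 := h σ hσ e he
    have he0 : algebraMap ℂ Om e ≠ 0 := by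
      intro h0
      rw [Algebra.smul_def, h0, zero_mul, map_eq_zero] at he
      exact mul_ne_zero hs0 (pow_ne_zero _ hw0) he
    rw [map_div₀, he, h2, Algebra.smul_def, Algebra.smul_def, mul_div_mul_left _ _ he0]
  obtain ⟨c, hc0, hc⟩ := rr_sq T s
  obtain ⟨d, hd0, hd⟩ := rr_sq T t
  have hij : i = j := by
    by_contra hne
    have hlt : j < i := by omega
    have hF : Ky T (((T.w ^ (i - j)) ^ 2)⁻¹) := by
      apply fixed_Ky T hB
      intro σ hσ
      have h3 := hfix σ hσ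
      have h4 : (T.w ^ (i - j)) ^ 2 = ((T.rr s * T.w ^ i) / (T.rr t * T.w ^ j)) ^ 2 *
          (algebraMap (RatFunc ℂ) Om d / algebraMap (RatFunc ℂ) Om c) := by
        have h5 : T.w ^ i = T.w ^ (i - j) * T.w ^ j := by
          rw [← pow_add]; congr 1; omega
        rw [← hc, ← hd, h5]
        field_simp
      rw [map_inv₀, h4, map_mul, map_pow, h3, map_div₀, σ.commutes, σ.commutes]
    obtain ⟨a, b, hab⟩ := hF
    have h6 : (algebraMap (RatFunc ℂ) Om a + algebraMap (RatFunc ℂ) Om b * T.y) ^ ν *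
        T.G ^ (2 * (i - j)) = aeval tau (1 : ℂ[X]) + aeval tau (0 : ℂ[X]) * T.y := by
      rw [← hab, ← T.hw', map_one, map_zero, zero_mul, add_zero, inv_pow, ← pow_mul, ← pow_mul,
        ← pow_mul]
      have h7 : (i - j) * (2 * ν) = ν * (2 * (i - j)) := by ring
      rw [h7]
      exact inv_mul_cancel₀ (pow_ne_zero _ hw0)
    have h8 := hX ν D T a b 1 0 (i - j) (by omega) (by omega) h6 (by simp) (Or.inl rfl)
    rw [h8.1, h8.2, map_zero, zero_mul, add_zero, inv_eq_zero] at hab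
    exact pow_ne_zero _ (pow_ne_zero _ hw0) hab
  refine ⟨hij, ?_⟩
  subst hij
  obtain ⟨a, b, hab⟩ := fixed_Ky T hB _ hfix
  apply symmDiff_cases
  obtain ⟨k, hk⟩ := Tower.prod_mem (D := D) (s ∩ t)
  have hst := T.rr_mul s t
  rw [hk] at hst
  have hk0 : k ≠ 0 := by
    rintro rfl
    rw [map_zero, zero_mul] at hst
    exact mul_ne_zero hs0 ht0 hst
  apply rr_Ky T hB (a * d) (b * d) k hk0
  rw [Algebra.smul_def, ← hst, Algebra.smul_def, Algebra.smul_def, map_mul, map_mul, ← hd,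
    rr_empty]
  have h3 : T.rr s = (algebraMap (RatFunc ℂ) Om a + algebraMap (RatFunc ℂ) Om b * T.y) *
      T.rr t := by
    rw [← hab, mul_div_mul_right _ _ (pow_ne_zero _ hw0), div_mul_cancel₀ _ ht0]
  rw [h3]
  ring

theorem sum_pair {M : Type} [AddCommMonoid M] : ∃ S : Finset (Finset (Fin 12)),
    (∀ s, s ∈ S ↔ (0 : Fin 12) ∈ s) ∧ ∀ f : Finset (Fin 12) → M,
      ∑ s, f s = ∑ s ∈ S, (f s + f sᶜ) := by
  classical
  refine ⟨Finset.univ.filter (fun s => (0 : Fin 12) ∈ s), fun s => by simp, fun f => ?_⟩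
  rw [← Finset.sum_filter_add_sum_filter_not Finset.univ (fun s => (0 : Fin 12) ∈ s) f,
    Finset.sum_add_distrib]
  congr 1
  refine Finset.sum_nbij' (fun s => sᶜ) (fun s => sᶜ) ?_ ?_ ?_ ?_ ?_
  · intro s hs
    simpa using hs
  · intro s hs
    simpa using hs
  · intro s _
    exact compl_compl s
  · intro s _
    exact compl_compl s
  · intro s _
    rw [compl_compl]

/-- The components of an element of a Galois stable subspace. -/
theorem comp_key (hX : ST_EX) (hB : ST_BAS) (hK : ST_KILL) (U : Submodule ℂ Om)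
    (hU : ∀ (σ : Om ≃ₐ[RatFunc ℂ] Om) (u : Om), u ∈ U → σ u ∈ U)
    (c : Finset (Fin 12) → Fin ν → RatFunc ℂ)
    (h : ∑ s, ∑ i, c s i • (T.rr s * T.w ^ (i : ℕ)) ∈ U) :
    ∀ s i, (c s i • T.rr s + c sᶜ i • T.rr sᶜ) * T.w ^ (i : ℕ) ∈ U := by
  classical
  have hw0 := w_ne T hB
  -- the index set
  obtain ⟨S0, hS0, hsp⟩ := sum_pair (M := Om)
  set z : Finset (Fin 12) × Fin ν → Om :=
    fun p => (c p.1 p.2 • T.rr p.1 + c p.1ᶜ p.2 • T.rr p.1ᶜ) * T.w ^ (p.2 : ℕ) with hz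
  set Γ : Set (Om →ₗ[ℂ] Om) := {g | ∃ σ : Om ≃ₐ[RatFunc ℂ] Om, σ T.y = T.y ∧ ∀ u, g u = σ u}
    with hΓ
  have hlin : ∀ σ : Om ≃ₐ[RatFunc ℂ] Om, σ T.y = T.y → ∃ g ∈ Γ, ∀ u, g u = σ u := by
    intro σ hσ
    refine ⟨{ toFun := σ, map_add' := map_add σ, map_smul' := fun c u => ?_ }, ⟨σ, hσ, fun u => rfl⟩,
      fun u => rfl⟩
    exact sig_smul σ c u
  -- eigenvalues
  have hev : ∀ (p : Finset (Fin 12) × Fin ν) (g : Om →ₗ[ℂ] Om), ∃ e : ℂ, g ∈ Γ →
      g (T.rr p.1 * T.w ^ (p.2 : ℕ)) = e • (T.rr p.1 * T.w ^ (p.2 : ℕ)) ∧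
      g (T.rr p.1ᶜ * T.w ^ (p.2 : ℕ)) = e • (T.rr p.1ᶜ * T.w ^ (p.2 : ℕ)) := by
    intro p g
    by_cases hg : g ∈ Γ
    · obtain ⟨σ, hσ, hg'⟩ := hg
      obtain ⟨e, he⟩ := sig_z T hB σ hσ p.1 p.2
      exact ⟨e, fun _ => by rw [hg', hg']; exact he⟩
    · exact ⟨0, fun h => absurd h hg⟩
  choose χ hχ using hev
  have hsum : ∑ p ∈ S0 ×ˢ (Finset.univ : Finset (Fin ν)), z p =
      ∑ s, ∑ i, c s i • (T.rr s * T.w ^ (i : ℕ)) := by
    rw [hsp, Finset.sum_product]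
    refine Finset.sum_congr rfl fun s _ => ?_
    rw [← Finset.sum_add_distrib]
    refine Finset.sum_congr rfl fun i _ => ?_
    simp only [hz]
    rw [add_mul, smul_mul_assoc, smul_mul_assoc]
  have heig : ∀ p : Finset (Fin 12) × Fin ν, ∀ g ∈ Γ, g (z p) = χ p g • z p := by
    rintro p g ⟨σ, hσ, hg⟩
    obtain ⟨h1, h2⟩ := hχ p g ⟨σ, hσ, hg⟩
    have h3 : z p = c p.1 p.2 • (T.rr p.1 * T.w ^ (p.2 : ℕ)) +
        c p.1ᶜ p.2 • (T.rr p.1ᶜ * T.w ^ (p.2 : ℕ)) := by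
      simp only [hz]
      rw [add_mul, smul_mul_assoc, smul_mul_assoc]
    rw [hg] at h1 h2
    rw [h3, hg, map_add, sigK_smul, sigK_smul, h1, h2, smul_add, smul_comm,
      smul_comm (c p.1ᶜ p.2)]
  have hsepar : ∀ p ∈ S0 ×ˢ (Finset.univ : Finset (Fin ν)),
      ∀ p' ∈ S0 ×ˢ (Finset.univ : Finset (Fin ν)), (p'.2 : ℕ) ≤ (p.2 : ℕ) → p ≠ p' →
      ∃ g ∈ Γ, χ p g ≠ χ p' g := by
    intro p hp p' hp' hle hne
    by_contra hcon
    push Not at hcon
    have h1 := sep T hX hB (s := p.1) (t := p'.1) p.2.2 hle (by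
      intro σ hσ e he
      obtain ⟨g, hg, hgσ⟩ := hlin σ hσ
      have h2 := (hχ p g hg).1
      have h3 := (hχ p' g hg).1
      rw [← hcon g hg, hgσ] at h3
      rw [hgσ, he] at h2
      have h4 : e = χ p g := by
        have h5 : (e - χ p g) • (T.rr p.1 * T.w ^ (p.2 : ℕ)) = 0 := by
          rw [sub_smul, h2, sub_self]
        rcases smul_eq_zero.1 h5 with h6 | h6
        · exact sub_eq_zero.1 h6
        · exact absurd h6 (mul_ne_zero (rr_ne T _) (pow_ne_zero _ hw0))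
      rw [h4, h3])
    obtain ⟨h2, h3⟩ := h1
    have hp1 := (hS0 _).1 (Finset.mem_product.1 hp).1
    have hp2 := (hS0 _).1 (Finset.mem_product.1 hp').1
    rcases h3 with h3 | h3
    · exact hne (Prod.ext h3.symm (Fin.ext h2))
    · rw [h3, Finset.mem_compl] at hp2
      exact hp2 hp1
  have hkill := hK Om U Γ (by
      rintro g ⟨σ, hσ, hg⟩ v hv
      rw [hg]
      exact hU σ v hv) (Finset (Fin 12) × Fin ν) (S0 ×ˢ (Finset.univ : Finset (Fin ν))) z χ
      (fun p _ g hg => heig p g hg) (by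
      intro p hp p' hp' hne
      rcases le_total (p'.2 : ℕ) (p.2 : ℕ) with hle | hle
      · exact hsepar p hp p' hp' hle hne
      · obtain ⟨g, hg, h1⟩ := hsepar p' hp' p hp hle hne.symm
        exact ⟨g, hg, h1.symm⟩) (by rw [hsum]; exact h)
  intro s i
  by_cases h0 : (0 : Fin 12) ∈ s
  · exact hkill (s, i) (Finset.mem_product.2 ⟨(hS0 s).2 h0, Finset.mem_univ i⟩)
  · have := hkill (sᶜ, i) (Finset.mem_product.2
      ⟨(hS0 sᶜ).2 (Finset.mem_compl.2 h0), Finset.mem_univ i⟩)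
    simp only [hz, compl_compl] at this
    rw [add_comm]
    exact this

theorem st_COMP (hX : ST_EX) (hB : ST_BAS) (hK : ST_KILL) (hW : ST_W) : ST_COMP := by
  intro ν D T m c h
  obtain ⟨hadd, -, hsm, -, hgal, -, -⟩ := hW
  set U : Submodule ℂ Om :=
    { carrier := W m
      add_mem' := fun {a b} ha hb => hadd m a b ha hb
      zero_mem' := by
        show IsIntegral A0 (monomial m (0 : Om))
        rw [map_zero]
        exact isIntegral_zero
      smul_mem' := fun c a ha => hsm m c a ha } with hU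
  exact comp_key T hX hB hK U (fun σ u hu => hgal σ m u hu) c h

theorem st_IND (hX : ST_EX) (hB : ST_BAS) (hK : ST_KILL) : ST_IND := by
  intro ν D T
  rw [Fintype.linearIndependent_iff]
  intro g hg p
  obtain ⟨s, i⟩ := p
  have h1 := comp_key T hX hB hK ⊥ (by
    intro σ u hu
    rw [Submodule.mem_bot] at hu ⊢
    rw [hu, map_zero]) (fun s i => g (s, i)) (by
    rw [Submodule.mem_bot, ← hg, Fintype.sum_prod_type]) s i
  rw [Submodule.mem_bot] at h1
  rcases mul_eq_zero.1 h1 with h2 | h2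
  · exact (rr_pair T hB (s := s) (t := sᶜ) ne_compl_self _ _ h2).1
  · exact absurd h2 (pow_ne_zero _ (w_ne T hB))

end Pool.Agent.Helper58.RG
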